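import Mathlib

set_option autoImplicit false

namespace Pool.Agent.H.MP_4e4c79_lc

open TopologicalSpace

/-- sum of squares of a functional on a list -/
def Q {M : Type} [AddCommGroup M] [Module ℝ M] (X : List M) (ξ : M →ₗ[ℝ] ℝ) : ℝ :=
  (X.map fun x => ξ x ^ 2).sum

/-- sum of squared norms -/
def nn {M : Type} [NormedAddCommGroup M] (X : List M) : ℝ := (X.map fun x => ‖x‖ ^ 2).sum

/-- the Lindenstrauss-Pelczynski inequality with constant `C` -/
def KP (C : ℝ) (M : Type) [NormedAddCommGroup M] [NormedSpace ℝ M] : Prop :=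
  ∀ X Y : List M, (∀ ξ : M →ₗ[ℝ] ℝ, Q Y ξ ≤ Q X ξ) → nn Y ≤ C * nn X

section
variable {M : Type} [NormedAddCommGroup M] [NormedSpace ℝ M]

theorem Q_append (X Y : List M) (ξ : M →ₗ[ℝ] ℝ) : Q (X ++ Y) ξ = Q X ξ + Q Y ξ := by
  simp [Q]

omit [NormedSpace ℝ M] in
theorem nn_append (X Y : List M) : nn (X ++ Y) = nn X + nn Y := by
  simp [nn]

theorem Q_smul (r : ℝ) (X : List M) (ξ : M →ₗ[ℝ] ℝ) :
    Q (X.map fun x => r • x) ξ = r ^ 2 * Q X ξ := by
  induction X with
  | nil => simp [Q]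
  | cons a X ih =>
    simp only [Q, List.map_cons, List.sum_cons, map_smul, smul_eq_mul] at ih ⊢
    rw [ih]; ring

theorem nn_smul (r : ℝ) (X : List M) : nn (X.map fun x => r • x) = r ^ 2 * nn X := by
  induction X with
  | nil => simp [nn]
  | cons a X ih =>
    simp only [nn, List.map_cons, List.sum_cons, norm_smul, Real.norm_eq_abs, mul_pow,
      sq_abs] at ih ⊢
    rw [ih]; ring

omit [NormedSpace ℝ M] in
theorem nn_nonneg (X : List M) : 0 ≤ nn X := by
  apply List.sum_nonneg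
  intro x hx
  obtain ⟨y, -, rfl⟩ := List.mem_map.1 hx
  positivity

theorem KP.mono {C D : ℝ} (h : KP C M) (hCD : C ≤ D) : KP D M := fun X Y hXY =>
  (h X Y hXY).trans (mul_le_mul_of_nonneg_right hCD (nn_nonneg X))

variable (M) in
/-- the span of the squares -/
def VV : Submodule ℝ ((M →ₗ[ℝ] ℝ) → ℝ) :=
  Submodule.span ℝ (Set.range fun x : M => fun ξ : M →ₗ[ℝ] ℝ => ξ x ^ 2)

theorem VV_rep (f : (M →ₗ[ℝ] ℝ) → ℝ) (hf : f ∈ VV M) :
    ∃ X Y : List M, ∀ ξ, f ξ = Q X ξ - Q Y ξ := by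
  induction hf using Submodule.span_induction with
  | mem f hf =>
    obtain ⟨x, rfl⟩ := hf
    exact ⟨[x], [], fun ξ => by simp [Q]⟩
  | zero => exact ⟨[], [], fun ξ => by simp [Q]⟩
  | add f g _ _ hf hg =>
    obtain ⟨X, Y, h⟩ := hf
    obtain ⟨X', Y', h'⟩ := hg
    refine ⟨X ++ X', Y ++ Y', fun ξ => ?_⟩
    rw [Q_append, Q_append, Pi.add_apply, h, h']; ring
  | smul c f _ hf =>
    obtain ⟨X, Y, h⟩ := hf
    rcases le_total 0 c with hc | hc
    · refine ⟨X.map fun x => √c • x, Y.map fun x => √c • x, fun ξ => ?_⟩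
      rw [Q_smul, Q_smul, Real.sq_sqrt hc, Pi.smul_apply, h, smul_eq_mul]; ring
    · refine ⟨Y.map fun x => √(-c) • x, X.map fun x => √(-c) • x, fun ξ => ?_⟩
      rw [Q_smul, Q_smul, Real.sq_sqrt (by linarith), Pi.smul_apply, h, smul_eq_mul]; ring

/-- admissible upper values -/
def SS (C : ℝ) (f : VV M) : Set ℝ :=
  {t | ∃ X Y : List M, (∀ ξ, f.1 ξ ≤ Q X ξ - Q Y ξ) ∧ t = C * nn X - nn Y}

theorem SS_nonempty (C : ℝ) (f : VV M) : (SS C f).Nonempty := by
  obtain ⟨X, Y, h⟩ := VV_rep f.1 f.2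
  exact ⟨_, X, Y, fun ξ => (h ξ).le, rfl⟩

theorem SS_add {C : ℝ} {f g : VV M} {s t : ℝ} (hs : s ∈ SS C f) (ht : t ∈ SS C g) :
    s + t ∈ SS C (f + g) := by
  obtain ⟨X, Y, h, rfl⟩ := hs
  obtain ⟨X', Y', h', rfl⟩ := ht
  refine ⟨X ++ X', Y ++ Y', fun ξ => ?_, ?_⟩
  · rw [Q_append, Q_append]
    have := h ξ
    have := h' ξ
    simp only [Submodule.coe_add, Pi.add_apply]
    linarith
  · rw [nn_append, nn_append]; ring

theorem SS_zero {C : ℝ} (hK : KP C M) {t : ℝ} (ht : t ∈ SS C (0 : VV M)) : 0 ≤ t := by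
  obtain ⟨X, Y, h, rfl⟩ := ht
  have := hK X Y fun ξ => by
    have := h ξ
    simp only [ZeroMemClass.coe_zero, Pi.zero_apply] at this
    linarith
  linarith

theorem SS_bdd {C : ℝ} (hK : KP C M) (f : VV M) : BddBelow (SS C f) := by
  obtain ⟨s, hs⟩ := SS_nonempty C (-f)
  refine ⟨-s, fun t ht => ?_⟩
  have := SS_add ht hs
  rw [add_neg_cancel] at this
  have := SS_zero hK this
  linarith

theorem SS_smul {C c : ℝ} (hc : 0 ≤ c) {f : VV M} {t : ℝ} (ht : t ∈ SS C f) :
    c * t ∈ SS C (c • f) := by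
  obtain ⟨X, Y, h, rfl⟩ := ht
  refine ⟨X.map fun x => √c • x, Y.map fun x => √c • x, fun ξ => ?_, ?_⟩
  · rw [Q_smul, Q_smul, Real.sq_sqrt hc]
    have := mul_le_mul_of_nonneg_left (h ξ) hc
    simp only [Submodule.coe_smul, Pi.smul_apply, smul_eq_mul]
    linarith
  · rw [nn_smul, nn_smul, Real.sq_sqrt hc]; ring

theorem N_le {C c : ℝ} (hK : KP C M) (hc : 0 < c) (f : VV M) :
    sInf (SS C (c • f)) ≤ c * sInf (SS C f) := by
  rw [← div_le_iff₀' hc]
  refine le_csInf (SS_nonempty C f) fun t ht => ?_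
  rw [div_le_iff₀' hc]
  exact csInf_le (SS_bdd hK _) (SS_smul hc.le ht)

theorem mul_mem (x y : M) : (fun ξ : M →ₗ[ℝ] ℝ => ξ x * ξ y) ∈ VV M := by
  have h : (fun ξ : M →ₗ[ℝ] ℝ => ξ x * ξ y) = (1 / 4 : ℝ) •
      ((fun ξ : M →ₗ[ℝ] ℝ => ξ (x + y) ^ 2) - fun ξ : M →ₗ[ℝ] ℝ => ξ (x - y) ^ 2) := by
    funext ξ
    simp only [map_add, map_sub, Pi.smul_apply, Pi.sub_apply, smul_eq_mul]
    ring
  rw [h]
  exact Submodule.smul_mem _ _ (Submodule.sub_mem _
    (Submodule.subset_span ⟨x + y, rfl⟩) (Submodule.subset_span ⟨x - y, rfl⟩))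

theorem exists_form {C : ℝ} (hK : KP C M) :
    ∃ B : M →ₗ[ℝ] M →ₗ[ℝ] ℝ, (∀ x y, B x y = B y x) ∧
      ∀ x, ‖x‖ ^ 2 ≤ B x x ∧ B x x ≤ C * ‖x‖ ^ 2 := by
  obtain ⟨g, -, hg⟩ := exists_extension_of_le_sublinear (E := VV M) ⟨⊥, 0⟩
    (fun f => sInf (SS C f))
    (fun c hc f => by
      refine le_antisymm (N_le hK hc f) ?_
      have := N_le hK (inv_pos.2 hc) (c • f)
      rw [smul_smul, inv_mul_cancel₀ hc.ne', one_smul] at this
      have := mul_le_mul_of_nonneg_left this hc.le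
      rwa [← mul_assoc, mul_inv_cancel₀ hc.ne', one_mul] at this)
    (fun f g => by
      have : ∀ s ∈ SS C f, sInf (SS C (f + g)) - s ≤ sInf (SS C g) := fun s hs =>
        le_csInf (SS_nonempty C g) fun t ht => by
          have := csInf_le (SS_bdd hK _) (SS_add hs ht)
          linarith
      have : sInf (SS C (f + g)) - sInf (SS C g) ≤ sInf (SS C f) :=
        le_csInf (SS_nonempty C f) fun s hs => by
          have := this s hs
          linarith
      linarith)
    (fun x => by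
      obtain ⟨x, hx⟩ := x
      have hx : x = 0 := by simpa using hx
      subst hx
      exact le_csInf (SS_nonempty C _) fun t ht => SS_zero hK ht)
  refine ⟨LinearMap.mk₂ ℝ (fun x y => g ⟨_, mul_mem x y⟩) ?_ ?_ ?_ ?_, ?_, ?_⟩
  · intro x x' y
    rw [← map_add]; congr 1; ext ξ; simp [add_mul]
  · intro c x y
    rw [← map_smul]; congr 1; ext ξ; simp [mul_assoc]
  · intro x y y'
    rw [← map_add]; congr 1; ext ξ; simp [mul_add]
  · intro c x y
    rw [← map_smul]; congr 1; ext ξ; simp [mul_left_comm]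
  · intro x y
    simp only [LinearMap.mk₂_apply]
    congr 1; ext ξ; simp [mul_comm]
  · intro x
    simp only [LinearMap.mk₂_apply]
    constructor
    · have h1 := hg (-⟨_, mul_mem x x⟩)
      have h2 : sInf (SS C (-⟨_, mul_mem x x⟩ : VV M)) ≤ C * nn ([] : List M) - nn [x] :=
        csInf_le (SS_bdd hK _) ⟨[], [x], fun ξ => by simp [Q, sq], rfl⟩
      rw [map_neg] at h1
      simp only [nn, List.map_nil, List.sum_nil, List.map_cons, List.sum_cons] at h2
      linarith
    · have h1 := hg ⟨_, mul_mem x x⟩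
      have h2 : sInf (SS C (⟨_, mul_mem x x⟩ : VV M)) ≤ C * nn [x] - nn ([] : List M) :=
        csInf_le (SS_bdd hK _) ⟨[x], [], fun ξ => by simp [Q, sq], rfl⟩
      simp only [nn, List.map_nil, List.sum_nil, List.map_cons, List.sum_cons] at h2
      linarith

end

theorem hilb_iso (E : Type) [NormedAddCommGroup E] [InnerProductSpace ℝ E] [CompleteSpace E]
    [SeparableSpace E] (hE : ¬ FiniteDimensional ℝ E) :
    Nonempty (E ≃ₗᵢ[ℝ] lp (fun _ : ℕ => ℝ) 2) := by
  obtain ⟨w, b, hb⟩ := exists_hilbertBasis ℝ E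
  have ho : Orthonormal ℝ ((↑) : w → E) := hb ▸ b.orthonormal
  have hc : Countable w := by
    refine Pairwise.countable_of_isOpen_disjoint (s := fun i : w => Metric.ball (i : E) (1 / 2))
      ?_ (fun _ => Metric.isOpen_ball) (fun i => Metric.nonempty_ball.2 (by norm_num))
    intro i j hij
    apply Metric.ball_disjoint_ball
    have h1 : ‖(i : E) - j‖ ^ 2 = 2 := by
      rw [@norm_sub_sq ℝ, ho.1 i, ho.1 j, ho.2 hij]; norm_num
    rw [dist_eq_norm]
    nlinarith [norm_nonneg ((i : E) - j)]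
  have hi : Infinite w := by
    by_contra h
    have : Finite w := not_infinite_iff_finite.1 h
    have := Fintype.ofFinite w
    exact hE (Module.Finite.of_basis b.toOrthonormalBasis.toBasis)
  obtain ⟨e⟩ : Nonempty (ℕ ≃ w) := nonempty_equiv_of_countable
  have ho' : Orthonormal ℝ (fun n => (e n : E)) := ho.comp e e.injective
  have hr : Set.range (fun n => (e n : E)) = Set.range b := by
    rw [hb]
    exact e.surjective.range_comp ((↑) : w → E)
  exact ⟨(HilbertBasis.mk ho' (by rw [hr, b.dense_span])).repr⟩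

/-- type synonym carrying the inner product given by a form -/
def Syn {M : Type} [AddCommGroup M] [Module ℝ M] (_B : M →ₗ[ℝ] M →ₗ[ℝ] ℝ) : Type := M

instance {M : Type} [AddCommGroup M] [Module ℝ M] (B : M →ₗ[ℝ] M →ₗ[ℝ] ℝ) :
    AddCommGroup (Syn B) := inferInstanceAs (AddCommGroup M)

instance {M : Type} [AddCommGroup M] [Module ℝ M] (B : M →ₗ[ℝ] M →ₗ[ℝ] ℝ) :
    Module ℝ (Syn B) := inferInstanceAs (Module ℝ M)

theorem iso_of_KP {M : Type} [NormedAddCommGroup M] [NormedSpace ℝ M] [CompleteSpace M]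
    [SeparableSpace M] (hM : ¬ FiniteDimensional ℝ M) {C : ℝ} (hK : KP C M) :
    Nonempty (M ≃L[ℝ] lp (fun _ : ℕ => ℝ) 2) := by
  obtain ⟨B, hs, hB⟩ := exists_form hK
  let l : M ≃ₗ[ℝ] Syn B := LinearEquiv.refl ℝ M
  let c : InnerProductSpace.Core ℝ (Syn B) :=
    { inner := fun x y => B (l.symm x) (l.symm y)
      conj_inner_symm := fun x y => by simpa using hs _ _
      re_inner_nonneg := fun x => by simpa using (sq_nonneg _).trans (hB (l.symm x)).1
      add_left := fun x y z => by simp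
      smul_left := fun x y r => by simp
      definite := fun x hx => by
        have h := (hB (l.symm x)).1
        change B (l.symm x) (l.symm x) = 0 at hx
        rw [hx] at h
        have : ‖l.symm x‖ = 0 := by nlinarith [norm_nonneg (l.symm x)]
        simpa using norm_eq_zero.1 this }
  letI : NormedAddCommGroup (Syn B) := c.toNormedAddCommGroup
  letI : InnerProductSpace ℝ (Syn B) := InnerProductSpace.ofCore c.toCore
  have hn : ∀ x : M, ‖l x‖ ^ 2 = B x x := fun x => by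
    rw [← real_inner_self_eq_norm_sq]; rfl
  let e : M ≃L[ℝ] Syn B := l.toContinuousLinearEquivOfBounds (√|C|) 1
    (fun x => by
      apply abs_le_of_sq_le_sq' _ (by positivity) |>.2
      rw [hn, mul_pow, Real.sq_sqrt (abs_nonneg C)]
      exact (hB x).2.trans (mul_le_mul_of_nonneg_right (le_abs_self C) (sq_nonneg _)))
    (fun x => by
      apply abs_le_of_sq_le_sq' _ (by positivity) |>.2
      have := hn (l.symm x)
      rw [l.apply_symm_apply] at this
      rw [one_mul, this]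
      exact (hB _).1)
  have : CompleteSpace (Syn B) :=
    (completeSpace_congr (e := e.toEquiv) e.isUniformEmbedding).1 inferInstance
  have : SeparableSpace (Syn B) := e.surjective.denseRange.separableSpace e.continuous
  obtain ⟨f⟩ := hilb_iso (Syn B) (fun h => hM (l.symm.finiteDimensional))
  exact ⟨e.trans f.toContinuousLinearEquiv⟩

end Pool.Agent.H.MP_4e4c79_lc
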