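import Mathlib
import Pool.Agent.H.MP_4e4c79_lc.A

set_option autoImplicit false

namespace Pool.Agent.H.MP_4e4c79_lc

open TopologicalSpace
open scoped ENNReal NNReal

theorem KP_hilb (E : Type) [NormedAddCommGroup E] [InnerProductSpace ℝ E] [CompleteSpace E] :
    KP 1 E := by
  obtain ⟨w, b, -⟩ := exists_hilbertBasis ℝ E
  have key : ∀ X : List E, HasSum (fun i => Q X (innerₗ E (b i))) (nn X) := by
    intro X
    induction X with
    | nil => simpa [Q, nn] using hasSum_zero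
    | cons a X ih =>
      have h := b.hasSum_inner_mul_inner a a
      rw [real_inner_self_eq_norm_sq] at h
      have h2 := h.add ih
      have e : (fun i => Q (a :: X) (innerₗ E (b i))) = fun i =>
          inner ℝ a (b i) * inner ℝ (b i) a + Q X (innerₗ E (b i)) := by
        funext i
        simp only [Q, List.map_cons, List.sum_cons]
        rw [innerₗ_apply_apply, real_inner_comm (b i) a, sq]
      rw [e]
      exact h2
  intro X Y h
  rw [one_mul]
  exact hasSum_le (fun i => h _) (key Y) (key X)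

theorem nn_map_le {M E : Type} [NormedAddCommGroup M] [NormedSpace ℝ M] [NormedAddCommGroup E]
    [NormedSpace ℝ E] (S : M →L[ℝ] E) (X : List M) : nn (X.map S) ≤ ‖S‖ ^ 2 * nn X := by
  induction X with
  | nil => simp [nn]
  | cons a X ih =>
    simp only [nn, List.map_cons, List.sum_cons] at ih ⊢
    have h := S.le_opNorm a
    have : ‖S a‖ ^ 2 ≤ (‖S‖ * ‖a‖) ^ 2 := by gcongr
    rw [mul_add]
    nlinarith

theorem KP_of_equiv {M E : Type} [NormedAddCommGroup M] [NormedSpace ℝ M] [NormedAddCommGroup E]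
    [InnerProductSpace ℝ E] [CompleteSpace E] (S : M ≃L[ℝ] E) : ∃ C, 0 ≤ C ∧ KP C M := by
  refine ⟨‖(S.symm : E →L[ℝ] M)‖ ^ 2 * ‖(S : M →L[ℝ] E)‖ ^ 2, by positivity, fun X Y h => ?_⟩
  have h1 := KP_hilb E (X.map (S : M →L[ℝ] E)) (Y.map (S : M →L[ℝ] E)) fun ξ => by
    have := h (ξ.comp (S : M →L[ℝ] E).toLinearMap)
    simpa [Q, List.map_map, Function.comp_def] using this
  have h2 := nn_map_le (S : M →L[ℝ] E) X
  have h3 := nn_map_le (S.symm : E →L[ℝ] M) (Y.map (S : M →L[ℝ] E))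
  have h4 : (Y.map (S : M →L[ℝ] E)).map (S.symm : E →L[ℝ] M) = Y := by
    simp [List.map_map, Function.comp_def]
  rw [h4] at h3
  rw [mul_assoc]
  refine h3.trans (mul_le_mul_of_nonneg_left ?_ (by positivity))
  linarith

theorem signs {E : Type} [NormedAddCommGroup E] [InnerProductSpace ℝ E] {ι : Type}
    [DecidableEq ι] (v : ι → E) (s : Finset ι) :
    ∃ ε : ι → ℝ, (∀ i, |ε i| = 1) ∧ ∑ i ∈ s, ‖v i‖ ^ 2 ≤ ‖∑ i ∈ s, ε i • v i‖ ^ 2 := by
  induction s using Finset.induction_on with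
  | empty => exact ⟨fun _ => 1, fun _ => abs_one, by simp⟩
  | insert a s ha ih =>
    obtain ⟨ε, hε, h⟩ := ih
    have hu : ∀ c : ℝ, ∑ i ∈ insert a s, Function.update ε a c i • v i
        = c • v a + ∑ i ∈ s, ε i • v i := fun c => by
      rw [Finset.sum_insert ha, Function.update_self]
      congr 1
      refine Finset.sum_congr rfl fun i hi => ?_
      rw [Function.update_of_ne (fun h : i = a => ha (h ▸ hi))]
    have hv : ∀ c : ℝ, |c| = 1 → ∀ i, |Function.update ε a c i| = 1 := fun c hc i => by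
      by_cases h : i = a
      · subst h; rwa [Function.update_self]
      · rw [Function.update_of_ne h]; exact hε i
    rw [Finset.sum_insert ha]
    rcases le_total 0 (inner ℝ (v a) (∑ i ∈ s, ε i • v i)) with h0 | h0
    · refine ⟨_, hv 1 abs_one, ?_⟩
      rw [hu, one_smul, norm_add_sq_real]
      linarith
    · refine ⟨_, hv (-1) (by simp), ?_⟩
      rw [hu, neg_one_smul, norm_add_sq_real, inner_neg_left, norm_neg]
      linarith

/-- the separable Hilbert space -/
abbrev HH : Type := lp (fun _ : ℕ => ℝ) 2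

/-- its unit vectors -/
noncomputable def bH : HilbertBasis ℕ ℝ HH := default

instance : SeparableSpace HH := by
  have h : IsSeparable ((Submodule.span ℝ (Set.range bH)).topologicalClosure : Set HH) :=
    ((Set.countable_range bH).isSeparable.span).closure
  rw [bH.dense_span] at h
  exact isSeparable_univ_iff.1 h

instance : SecondCountableTopology HH := UniformSpace.secondCountable_of_separable HH

theorem bH_norm (i : ℕ) : ‖bH i‖ = 1 := bH.orthonormal.1 i

theorem bH_sub {i j : ℕ} (h : i ≠ j) : 1 ≤ ‖bH i - bH j‖ := by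
  have h1 : ‖bH i - bH j‖ ^ 2 = 2 := by
    rw [@norm_sub_sq ℝ, bH_norm, bH_norm, bH.orthonormal.2 h]; norm_num
  nlinarith [norm_nonneg (bH i - bH j)]

/-- half the exponent -/
noncomputable def qq (n : ℕ) : ℝ := (n + 2) / (n + 1)

theorem one_le_qq (n : ℕ) : 1 ≤ qq n := by
  unfold qq
  rw [le_div_iff₀ (by positivity)]
  linarith

theorem one_sub_qq (n : ℕ) : 1 - 1 / qq n = 1 / (n + 2) := by
  unfold qq
  field_simp
  ring

/-- the exponent -/
noncomputable def PP (n : ℕ) : ℝ≥0∞ := ENNReal.ofReal (2 * qq n)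

theorem PP_toReal (n : ℕ) : (PP n).toReal = 2 * qq n :=
  ENNReal.toReal_ofReal (by linarith [one_le_qq n])

instance (n : ℕ) : Fact (1 ≤ PP n) :=
  ⟨by unfold PP; rw [ENNReal.one_le_ofReal]; linarith [one_le_qq n]⟩

/-- number of blocks -/
def DD (n : ℕ) : ℕ := (n + 1) ^ (2 * (n + 2))

theorem DD_pos (n : ℕ) : 0 < DD n := by unfold DD; positivity

/-- the spaces -/
abbrev MM (n : ℕ) : Type := PiLp (PP n) (fun _ : Fin (DD n) => HH)

theorem MM_norm (n : ℕ) (x : MM n) :
    ‖x‖ ^ 2 = (∑ i, (‖x i‖ ^ 2) ^ qq n) ^ (1 / qq n) := by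
  have hq := one_le_qq n
  rw [PiLp.norm_eq_sum (by rw [PP_toReal]; linarith), PP_toReal, ← Real.rpow_natCast,
    ← Real.rpow_mul (Finset.sum_nonneg fun i _ => by positivity)]
  congr 1
  · refine Finset.sum_congr rfl fun i _ => ?_
    rw [Real.rpow_mul (norm_nonneg _)]
    norm_num
  · field_simp
    norm_num

theorem two_mean {u v q : ℝ} (hu : 0 ≤ u) (hv : 0 ≤ v) (hq : 1 ≤ q) :
    u ^ (1 / q) + v ^ (1 / q) ≤ 2 ^ (1 - 1 / q) * (u + v) ^ (1 / q) := by
  have hq0 : 0 < q := by linarith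
  have h := NNReal.rpow_add_le_mul_rpow_add_rpow (⟨u, hu⟩ ^ (1 / q)) (⟨v, hv⟩ ^ (1 / q)) hq
  have h' : (u ^ (1 / q) + v ^ (1 / q)) ^ q ≤ 2 ^ (q - 1) * ((u ^ (1 / q)) ^ q + (v ^ (1 / q)) ^ q) := by
    exact_mod_cast h
  rw [← Real.rpow_mul hu, ← Real.rpow_mul hv, one_div_mul_cancel hq0.ne', Real.rpow_one,
    Real.rpow_one] at h'
  have h2 := Real.rpow_le_rpow (by positivity) h' (z := 1 / q) (by positivity)
  rw [← Real.rpow_mul (by positivity), mul_one_div_cancel hq0.ne', Real.rpow_one,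
    Real.mul_rpow (by positivity) (by positivity), ← Real.rpow_mul (by norm_num)] at h2
  convert h2 using 3
  field_simp

theorem clarkson (n : ℕ) (x y : MM n) :
    ‖x + y‖ ^ 2 + ‖x - y‖ ^ 2 ≤ (2 + 2 / (n + 2)) * (‖x‖ ^ 2 + ‖y‖ ^ 2) := by
  have hq := one_le_qq n
  have hq0 : 0 < qq n := by linarith
  have h2 : (2 : ℝ) ^ (1 - 1 / qq n) ≤ 1 + 1 / (n + 2) := by
    rw [one_sub_qq]
    have := rpow_one_add_le_one_add_mul_self (s := 1) (by norm_num) (p := 1 / (n + 2))
      (by positivity) (by rw [div_le_one (by positivity)]; linarith [Nat.cast_nonneg (α := ℝ) n])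
    norm_num at this ⊢
    exact this
  rw [MM_norm, MM_norm, MM_norm, MM_norm]
  refine (two_mean (Finset.sum_nonneg fun i _ => by positivity)
    (Finset.sum_nonneg fun i _ => by positivity) hq).trans ?_
  have h3 := Real.Lp_add_le_of_nonneg Finset.univ (f := fun i => ‖x i‖ ^ 2)
    (g := fun i => ‖y i‖ ^ 2) hq (fun i _ => by positivity) (fun i _ => by positivity)
  have h4 : ∑ i, (‖(x + y) i‖ ^ 2) ^ qq n + ∑ i, (‖(x - y) i‖ ^ 2) ^ qq n
      ≤ 2 ^ qq n * ∑ i, (‖x i‖ ^ 2 + ‖y i‖ ^ 2) ^ qq n := by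
    rw [← Finset.sum_add_distrib, Finset.mul_sum]
    refine Finset.sum_le_sum fun i _ => ?_
    refine (Real.add_rpow_le_rpow_add (by positivity) (by positivity) hq).trans (le_of_eq ?_)
    rw [← Real.mul_rpow (by norm_num) (by positivity), PiLp.add_apply, PiLp.sub_apply]
    congr 1
    have := parallelogram_law_with_norm ℝ (x i) (y i)
    nlinarith
  have h5 := Real.rpow_le_rpow (add_nonneg (Finset.sum_nonneg fun i _ => by positivity)
    (Finset.sum_nonneg fun i _ => by positivity)) h4 (z := 1 / qq n) (by positivity)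
  rw [Real.mul_rpow (by positivity) (Finset.sum_nonneg fun i _ => by positivity),
    ← Real.rpow_mul (by norm_num), mul_one_div_cancel hq0.ne', Real.rpow_one] at h5
  calc _ ≤ (1 + 1 / (n + 2 : ℝ)) * (2 * ((∑ i, (‖x i‖ ^ 2) ^ qq n) ^ (1 / qq n) +
        (∑ i, (‖y i‖ ^ 2) ^ qq n) ^ (1 / qq n))) := by
        refine mul_le_mul h2 (h5.trans (by linarith)) ?_ (by positivity)
        exact Real.rpow_nonneg (add_nonneg (Finset.sum_nonneg fun i _ => by positivity)
          (Finset.sum_nonneg fun i _ => by positivity)) _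
    _ = _ := by ring

theorem MM_KP (n : ℕ) : ∃ C, 0 ≤ C ∧ KP C (MM n) :=
  KP_of_equiv ((PiLp.continuousLinearEquiv (PP n) ℝ (fun _ : Fin (DD n) => HH)).trans
    (PiLp.continuousLinearEquiv 2 ℝ (fun _ : Fin (DD n) => HH)).symm)

theorem MM_far (n : ℕ) (S : MM n ≃L[ℝ] HH) :
    (n + 1 : ℝ) ≤ ‖(S : MM n →L[ℝ] HH)‖ * ‖(S.symm : HH →L[ℝ] MM n)‖ := by
  have hq := one_le_qq n
  have hq0 : 0 < qq n := by linarith
  have hD : (0 : ℝ) < DD n := by exact_mod_cast DD_pos n
  let w : Fin (DD n) → MM n := fun i => PiLp.single (PP n) i (bH 0)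
  obtain ⟨ε, hε, h⟩ := signs (fun i => S (w i)) Finset.univ
  generalize ha : ‖(S : MM n →L[ℝ] HH)‖ = a
  generalize hb : ‖(S.symm : HH →L[ℝ] MM n)‖ = b
  have ha0 : 0 ≤ a := ha ▸ norm_nonneg _
  have hb0 : 0 ≤ b := hb ▸ norm_nonneg _
  have h1 : ∀ i, 1 ≤ b ^ 2 * ‖S (w i)‖ ^ 2 := fun i => by
    have h := (S.symm : HH →L[ℝ] MM n).le_opNorm (S (w i))
    rw [hb] at h
    simp only [ContinuousLinearEquiv.coe_coe, ContinuousLinearEquiv.symm_apply_apply] at h
    have hw : ‖w i‖ = 1 := by simp [w, bH_norm]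
    rw [hw] at h
    nlinarith
  have h2 : (DD n : ℝ) ≤ b ^ 2 * ∑ i, ‖S (w i)‖ ^ 2 := by
    rw [Finset.mul_sum]
    have := Finset.sum_le_sum (s := Finset.univ) fun i _ => h1 i
    simpa using this
  have h3 : ∑ i, ε i • S (w i) = S (∑ i, ε i • w i) := by simp
  have h4 : ‖∑ i, ε i • w i‖ ^ 2 = (DD n : ℝ) ^ (1 / qq n) := by
    rw [MM_norm]
    congr 1
    have : ∀ j, ‖(∑ i, ε i • w i) j‖ = 1 := fun j => by
      have : (∑ i, ε i • w i) j = ε j • bH 0 := by
        simp only [w, WithLp.ofLp_sum, Finset.sum_apply, PiLp.smul_apply]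
        rw [Finset.sum_eq_single j]
        · simp
        · intro i _ hi; simp [Ne.symm hi]
        · simp
      rw [this, norm_smul, bH_norm, Real.norm_eq_abs, hε, one_mul]
    simp only [this]
    simp
  have h5 : ‖S (∑ i, ε i • w i)‖ ^ 2 ≤ a ^ 2 * (DD n : ℝ) ^ (1 / qq n) := by
    have h := (S : MM n →L[ℝ] HH).le_opNorm (∑ i, ε i • w i)
    rw [ha] at h
    simp only [ContinuousLinearEquiv.coe_coe] at h
    rw [← h4, ← mul_pow]
    gcongr
  rw [h3] at h
  have h6 : (DD n : ℝ) = (n + 1) ^ 2 * (DD n : ℝ) ^ (1 / qq n) := by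
    have : ((n + 1 : ℝ)) ^ 2 = (DD n : ℝ) ^ (1 - 1 / qq n) := by
      rw [one_sub_qq, DD]
      push_cast
      rw [← Real.rpow_natCast (n + 1 : ℝ) (2 * (n + 2)), ← Real.rpow_mul (by positivity),
        ← Real.rpow_natCast]
      congr 1
      push_cast
      field_simp
    rw [this, ← Real.rpow_add hD]
    simp
  have h7 : (n + 1 : ℝ) ^ 2 * (DD n : ℝ) ^ (1 / qq n) ≤ (a * b) ^ 2 * (DD n : ℝ) ^ (1 / qq n) := by
    rw [← h6]
    have := mul_le_mul_of_nonneg_left (h.trans h5) (sq_nonneg b)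
    nlinarith
  have h8 := le_of_mul_le_mul_right h7 (by positivity)
  exact (abs_le_of_sq_le_sq' h8 (by positivity)).2

end Pool.Agent.H.MP_4e4c79_lc
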